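import Pool.Agent.helper17.EXT.Spec

/-!
# Project EXT, row GMT: an element of the group which fixes the positive long root vectors and `E(-θ)` and commutes with
the positive short root elements is the identity on `LT τ`
-/

set_option autoImplicit false

open Finset

namespace Pool.Agent.EXT

open Pool.Agent.EXC

theorem GMT_c1 : ∀ β ∈ RL, pv β = β → (∀ i, 0 ≤ β i) → β ≠ th →
    ∃ δ ∈ RL, pv δ = δ ∧ (∀ i, 0 ≤ δ i) ∧ ip C6 β δ = -1 := by
  decide +kernel

theorem GMT_c2 : ∀ η ∈ RL, pv η ≠ η →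
    ∃ γ ∈ RL, pv γ ≠ γ ∧ (∀ i, 0 ≤ γ i) ∧ η - γ ∈ RL ∧ pv (η - γ) = η - γ := by
  decide +kernel

theorem GMT_c3 : ∀ δ ∈ RL, (δ 0 + δ 1 + δ 2 + δ 3 + δ 4 + δ 5 ≤ 11) ∧
    ((∀ i, 0 ≤ δ i) → 1 ≤ δ 0 + δ 1 + δ 2 + δ 3 + δ 4 + δ 5) := by
  decide +kernel

theorem GMT_pn : ∀ i, pn (pn i) = i := by
  decide

theorem GMT (hLST : LST_stmt) (hRTF : RTF_stmt) (hSIG : SIG_stmt) (hSGR : SGR_stmt) (hGFX : GFX_stmt)
    (hACS : ACS_stmt) : GMT_stmt := by
  intro K _ τ hτ g hg h1 h2 h3
  obtain ⟨rip, rpp, radd, rneg, rsr, rpos, rsn, rsnp, rsnn, rsns, rsnl, rsg, rort, rth, rthd⟩ := hRTF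
  obtain ⟨sadd, ssmul, sinv, sbr, sfm, sE, sht, sxe⟩ := hSIG K τ hτ
  obtain ⟨gS, gL, gadd, gpi, gXY, gcl⟩ := hSGR K τ hτ
  obtain ⟨-, gAu, gsi⟩ := gcl g hg
  -- long root vectors are in `LT`
  have hLT : ∀ β, LR β → (E C6 β : Lm C6 K) ∈ LT τ := by
    intro β hβ
    show si τ (E C6 β) = E C6 β
    rw [sE β hβ.1, hβ.2, rsnl β hβ.2]
    simp
  have hLRadd : ∀ β δ, LR β → LR δ → ip C6 β δ = -1 → LR (β + δ) := by
    intro β δ hβ hδ h
    refine ⟨(add_root_iff hβ.1 hδ.1).2 h, ?_⟩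
    rw [radd, hβ.2, hδ.2]
  have hLRneg : ∀ β, LR β → LR (-β) := by
    intro β hβ
    refine ⟨neg_root C6 hβ.1, ?_⟩
    rw [rneg, hβ.2]
  -- the negative long roots
  have hneg : ∀ k : ℕ, ∀ β, LR β → Pos β → 12 - (β 0 + β 1 + β 2 + β 3 + β 4 + β 5) ≤ (k : ℤ) →
      g (E C6 (-β)) = (E C6 (-β) : Lm C6 K) := by
    intro k
    induction k with
    | zero =>
      intro β hβ _ hk
      have := (GMT_c3 β ((hLST β).1 hβ.1)).1
      push_cast at hk
      omega
    | succ k ih =>
      intro β hβ hp hk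
      by_cases hth : β = th
      · rw [hth]
        exact h2
      obtain ⟨δ, hδR, hδ, hδp, hip⟩ := GMT_c1 β ((hLST β).1 hβ.1) hβ.2 hp hth
      have hδL : LR δ := ⟨(hLST δ).2 hδR, hδ⟩
      have hs : LR (β + δ) := hLRadd β δ hβ hδL hip
      have hsp : Pos (β + δ) := fun i => add_nonneg (hp i) (hδp i)
      have h4 := (GMT_c3 δ hδR).2 hδp
      have h5 := ih (β + δ) hs hsp (by
        simp only [Pi.add_apply]
        push_cast at hk
        omega)
      have hn := neg_root C6 hs.1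
      have hne : -(β + δ) ≠ -δ := by
        intro e
        have e1 := neg_injective e
        have e2 : β = 0 := by
          have := add_right_cancel (a := β) (b := δ) (c := 0) (by rw [e1, zero_add])
          exact this
        have e3 := hβ.1
        rw [e2] at e3
        simp at e3
      have e0 := br_E_E (F := K) C6 hδL.1 hn
      rw [if_neg hne, sub_zero] at e0
      have e1 : δ + -(β + δ) = -β := by abel
      rw [e1] at e0
      have e2 := gAu.br (E C6 δ) (E C6 (-(β + δ)))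
      rw [h1 δ hδL hδp, h5, e0, map_smul] at e2
      exact smul_right_injective _ (sg_ne_zero (F := K) C6 δ (-(β + δ))) e2
  have hE : ∀ β, LR β → g (E C6 β) = (E C6 β : Lm C6 K) := by
    intro β hβ
    rcases f_DIC 6 C6 β hβ.1 with hp | hp
    · exact h1 β hβ hp
    · have h5 := hneg (12 - ((-β) 0 + (-β) 1 + (-β) 2 + (-β) 3 + (-β) 4 + (-β) 5)).toNat (-β) (hLRneg β hβ) hp
        (Int.self_le_toNat _)
      rw [neg_neg] at h5
      exact h5
  have hht : ∀ α, LR α → g (ht C6 α) = (ht C6 α : Lm C6 K) := by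
    intro α hα
    have hn := hLRneg α hα
    have e0 := br_E_E (F := K) C6 hα.1 hn.1
    have e00 : ip C6 (0 : Fin 6 → ℤ) 0 ≠ 2 := by simp
    rw [if_pos rfl, add_neg_cancel, E_eq_zero C6 e00, smul_zero, zero_sub] at e0
    have e1 := gAu.br (E C6 α) (E C6 (-α))
    rw [hE _ hα, hE _ hn, e0, map_neg] at e1
    exact neg_injective e1
  -- the short roots
  have he : ∀ η, SR η → ∀ t : K, g (t • E C6 η + ((sn η : K) * τ t) • E C6 (pv η)) =
      (t • E C6 η + ((sn η : K) * τ t) • E C6 (pv η) : Lm C6 K) := by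
    intro η hη t
    obtain ⟨γ, hγR, hγ, hγp, hβR, hβ⟩ := GMT_c2 η ((hLST η).1 hη.1) hη.2
    obtain ⟨β, hβe⟩ : ∃ β, β = η - γ := ⟨_, rfl⟩
    rw [← hβe] at hβR hβ
    have hγβ : γ + β = η := by rw [hβe]; abel
    have hSγ : SR γ := ⟨(hLST γ).2 hγR, hγ⟩
    have hLβ : LR β := ⟨(hLST β).2 hβR, hβ⟩
    have hip : ip C6 γ β = -1 := (add_root_iff hSγ.1 hLβ.1).1 (by rw [hγβ]; exact hη.1)
    obtain ⟨X, -, hX⟩ := gS γ (t * (sg C6 γ β : K)) hSγ
    obtain ⟨-, -, -, hact⟩ := hACS K τ hτ γ β hSγ hLβ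
    obtain ⟨hL, hXe⟩ := (hact _ X hX).2 hip
    have h6 := h3 γ hSγ hγp _ X hX (E C6 β) (hLT β hLβ)
    rw [hE β hLβ, hXe] at h6
    have hpη : pv γ + β = pv η := by rw [← hγβ, radd, hβ]
    rw [hpη, hγβ] at h6
    rw [map_add, map_add, map_add, map_smul g _ (E C6 (γ + pv γ + β)), hE _ hL, hE _ hLβ] at h6
    have h7 := add_right_cancel h6
    rw [add_assoc, add_assoc] at h7
    have h8 := add_left_cancel h7
    rw [← map_add] at h8
    have hc1 : t * (sg C6 γ β : K) * (sg C6 γ β : K) = t := by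
      rw [mul_assoc, sg_sq, mul_one]
    have hc2 : (sn γ : K) * τ (t * (sg C6 γ β : K)) * (sg C6 (pv γ) β : K) = (sn η : K) * τ t := by
      have e1 := rsg γ β
      rw [hβ, rsnl β hβ, mul_one, hγβ] at e1
      have e2 : (sg C6 (pv γ) β : K) * (sg C6 γ β : K) = (sn η : K) * (sn γ : K) := by
        exact_mod_cast congrArg (Int.cast : ℤ → K) e1
      have e3 : (sn γ : K) * (sn γ : K) = 1 := by
        rcases rsn γ with h | h <;> rw [h] <;> simp
      rw [map_mul, map_intCast]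
      calc (sn γ : K) * (τ t * (sg C6 γ β : K)) * (sg C6 (pv γ) β : K) =
            (sn γ : K) * τ t * ((sg C6 (pv γ) β : K) * (sg C6 γ β : K)) := by ring
        _ = ((sn γ : K) * (sn γ : K)) * ((sn η : K) * τ t) := by rw [e2]; ring
        _ = (sn η : K) * τ t := by rw [e3, one_mul]
    rw [hc1, hc2] at h8
    exact h8
  have hd : ∀ η, SR η → ∀ t : K, t • (g (E C6 η) - E C6 η) + ((sn η : K) * τ t) • (g (E C6 (pv η)) - E C6 (pv η)) =
      (0 : Lm C6 K) := by
    intro η hη t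
    have h6 := he η hη t
    rw [map_add, map_smul, map_smul] at h6
    rw [smul_sub, smul_sub, sub_add_sub_comm, h6, sub_self]
  -- the coroots of the short simple roots
  have hh : ∀ i, pn i ≠ i → ∀ t : K, t • (g (ht C6 (sr i)) - ht C6 (sr i)) +
      τ t • (g (ht C6 (sr (pn i))) - ht C6 (sr (pn i))) = (0 : Lm C6 K) := by
    intro i hi t
    have hip : ip C6 (sr i) (sr i) = 2 := ip_sr_self C6 i
    have hne : pv (sr i) ≠ sr i := by
      rw [rsr]
      intro e
      have := congrFun e i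
      simp only [sr, Pi.single_apply, if_true] at this
      rw [if_neg (fun h => hi h.symm)] at this
      omega
    have hS : SR (sr i) := ⟨hip, hne⟩
    have hSn : SR (-sr i) := by
      refine ⟨neg_root C6 hip, ?_⟩
      rw [rneg]
      intro e
      exact hne (neg_injective e)
    have hort := rort _ hS
    have e1 := he (sr i) hS t
    have e2 := he (-sr i) hSn 1
    rw [rsns] at e1
    rw [rsnn, rsns, rneg] at e2
    simp only [Int.cast_one, one_mul, map_one, one_smul] at e1 e2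
    have hpip : ip C6 (pv (sr i)) (pv (sr i)) = 2 := by rw [rip]; exact hip
    have hn1 := neg_root C6 hip
    have hn2 := neg_root C6 hpip
    have e00 : ip C6 (0 : Fin 6 → ℤ) 0 ≠ 2 := by simp
    have b1 := br_E_E (F := K) C6 hip hn1
    rw [if_pos rfl, add_neg_cancel, E_eq_zero C6 e00, smul_zero, zero_sub] at b1
    have b2 := br_E_E (F := K) C6 hpip hn2
    rw [if_pos rfl, add_neg_cancel, E_eq_zero C6 e00, smul_zero, zero_sub] at b2
    have b3 := br_E_E (F := K) C6 hip hn2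
    have n3 : ip C6 (sr i + -pv (sr i)) (sr i + -pv (sr i)) ≠ 2 := by
      intro h
      have := (add_root_iff hip hn2).1 h
      rw [ip_neg_right, hort] at this
      omega
    rw [if_neg (fun e => hne (neg_injective e)), E_eq_zero C6 n3, smul_zero, sub_zero] at b3
    have b4 := br_E_E (F := K) C6 hpip hn1
    have n4 : ip C6 (pv (sr i) + -sr i) (pv (sr i) + -sr i) ≠ 2 := by
      intro h
      have := (add_root_iff hpip hn1).1 h
      rw [ip_neg_right, ip_comm, hort] at this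
      omega
    rw [if_neg (fun e => hne (neg_injective e).symm), E_eq_zero C6 n4, smul_zero, sub_zero] at b4
    have b5 : br C6 (t • E C6 (sr i) + τ t • E C6 (pv (sr i))) (E C6 (-sr i) + E C6 (-pv (sr i))) =
        (-(t • ht C6 (sr i) + τ t • ht C6 (pv (sr i))) : Lm C6 K) := by
      rw [br_add_left, br_add_right, br_add_right, br_smul_left, br_smul_left, br_smul_left, br_smul_left,
        b1, b2, b3, b4, smul_zero, smul_zero, add_zero, zero_add, smul_neg, smul_neg, neg_add]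
    have e3 := gAu.br (t • E C6 (sr i) + τ t • E C6 (pv (sr i))) (E C6 (-sr i) + E C6 (-pv (sr i)))
    rw [e1, e2, b5, map_neg] at e3
    have e4 := neg_injective e3
    rw [map_add, map_smul, map_smul, rsr] at e4
    rw [smul_sub, smul_sub, sub_add_sub_comm, e4, sub_self]
  -- the decomposition
  intro v hv
  have hv' : si τ v = v := hv
  have hv1 : ∀ i, v.1 (pn i) = τ (v.1 i) := by
    intro i
    have e := congrFun (congrArg Prod.fst hv') (pn i)
    have e2 : τ (v.1 (pn (pn i))) = v.1 (pn i) := e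
    rw [GMT_pn] at e2
    exact e2.symm
  have hv2 : ∀ γ : Rt C6, v.2 γ = (sn γ.1 : K) * τ (cf v (pv γ.1)) := by
    intro γ
    exact (congrFun (congrArg Prod.snd hv') γ).symm
  have A : g ((v.1, 0) : Lm C6 K) = ((v.1, 0) : Lm C6 K) := by
    rw [← sub_eq_zero, NRM_sum C6 K v.1, map_sum, ← Finset.sum_sub_distrib]
    have : ∀ i : Fin 6, g (v.1 i • ht C6 (sr i)) - v.1 i • ht C6 (sr i) =
        (v.1 i • (g (ht C6 (sr i)) - ht C6 (sr i)) : Lm C6 K) := by
      intro i
      rw [map_smul, smul_sub]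
    simp only [this]
    refine Finset.sum_involution (fun i _ => pn i) ?_ ?_ (fun _ _ => mem_univ _) (fun i _ => GMT_pn i)
    · intro i _
      by_cases hi : pn i = i
      · have hL : LR (sr i) := ⟨ip_sr_self C6 i, by rw [rsr, hi]⟩
        rw [hi, hht _ hL, sub_self, smul_zero, add_zero]
      · rw [hv1 i]
        exact hh i hi (v.1 i)
    · intro i _ h0 hi
      apply h0
      have hL : LR (sr i) := ⟨ip_sr_self C6 i, by rw [rsr, hi]⟩
      rw [hht _ hL, sub_self, smul_zero]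
  have B : g (∑ α : Rt C6, v.2 α • E C6 α.1) = (∑ α : Rt C6, v.2 α • E C6 α.1 : Lm C6 K) := by
    rw [← sub_eq_zero, map_sum, ← Finset.sum_sub_distrib]
    have : ∀ α : Rt C6, g (v.2 α • E C6 α.1) - v.2 α • E C6 α.1 =
        (v.2 α • (g (E C6 α.1) - E C6 α.1) : Lm C6 K) := by
      intro i
      rw [map_smul, smul_sub]
    simp only [this]
    refine Finset.sum_involution (fun α _ => (⟨pv α.1, by rw [rip]; exact α.2⟩ : Rt C6)) ?_ ?_
      (fun _ _ => mem_univ _) (fun α _ => Subtype.ext (rpp α.1))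
    · intro α _
      by_cases hi : pv α.1 = α.1
      · have hL : LR α.1 := ⟨α.2, hi⟩
        have hL2 : LR (pv α.1) := by rw [hi]; exact hL
        show v.2 α • (g (E C6 α.1) - E C6 α.1) + v.2 _ • (g (E C6 (pv α.1)) - E C6 (pv α.1)) = 0
        rw [hE _ hL, hE _ hL2, sub_self, sub_self, smul_zero, smul_zero, add_zero]
      · have hS : SR α.1 := ⟨α.2, hi⟩
        have e := hv2 ⟨pv α.1, by rw [rip]; exact α.2⟩
        have e2 : cf v (pv (pv α.1)) = v.2 α := by
          rw [rpp]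
          unfold cf
          rw [dif_pos α.2]
        rw [e2] at e
        show v.2 α • (g (E C6 α.1) - E C6 α.1) +
          v.2 ⟨pv α.1, _⟩ • (g (E C6 (pv α.1)) - E C6 (pv α.1)) = 0
        rw [e, rsnp]
        exact hd α.1 hS (v.2 α)
    · intro α _ h0 hi
      apply h0
      have hL : LR α.1 := ⟨α.2, congrArg Subtype.val hi⟩
      rw [hE _ hL, sub_self, smul_zero]
  have e := Lm_sum C6 v
  rw [e, map_add, A, B]

end Pool.Agent.EXT
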