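import Pool.Agent.helper17.EXT.SpecJ

/-!
# Project EXT (MP_561ff4_al), block J, row JCZ: a mixed element has a smaller centraliser
-/

set_option autoImplicit false

open Finset

namespace Pool.Agent.EXT

open Pool.Agent.EXC

theorem JCZ_add {K : Type} [Field K] (a : Lm C6 K) (t : K) (x y : Lm C6 K) :
    xe C6 a t (x + y) = xe C6 a t x + xe C6 a t y := by
  unfold xe
  rw [br_add_right, fm_add_right]
  module

theorem JCZ_smul {K : Type} [Field K] (a : Lm C6 K) (t c : K) (x : Lm C6 K) :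
    xe C6 a t (c • x) = c • xe C6 a t x := by
  unfold xe
  rw [br_smul_right, fm_smul_right]
  module

theorem JCZ_zero {K : Type} [Field K] (a x : Lm C6 K) : xe C6 a 0 x = x := by
  unfold xe
  simp

/-- `-(eta - th - sr 5)` -/
def JCZ_D : Fin 6 → ℤ := ![0, 1, 0, 1, 1, 1]

/-- `th - eta` -/
def JCZ_E : Fin 6 → ℤ := ![0, 1, 0, 1, 1, 0]

theorem JCZ_r1 : SR (-sr 0) := by unfold SR; decide +kernel
theorem JCZ_r2 : SR eta := by unfold SR; decide +kernel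
theorem JCZ_r3 : LR (-th) := by unfold LR; decide +kernel
theorem JCZ_r4 : 0 ≤ ip C6 (-sr 0) th := by decide +kernel
theorem JCZ_r5 : 0 ≤ ip C6 (-sr 0) (-th) := by decide +kernel
theorem JCZ_r6 : ip C6 eta (-th) = -1 := by decide +kernel
theorem JCZ_r7 : ip C6 JCZ_D JCZ_D = 2 := by decide +kernel
theorem JCZ_r8 : ip C6 JCZ_E JCZ_E = 2 := by decide +kernel
theorem JCZ_r9 : ip C6 (pv (-sr 0)) (pv (-sr 0)) = 2 := by decide +kernel
theorem JCZ_r10 : ip C6 (pv (-sr 0)) JCZ_D = -1 := by decide +kernel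
theorem JCZ_r11 : pv (-sr 0) + JCZ_D = JCZ_E := by decide +kernel
theorem JCZ_r12 : 0 ≤ ip C6 (-sr 0) JCZ_D := by decide +kernel
theorem JCZ_r13 : 0 ≤ ip C6 (-sr 0) JCZ_E := by decide +kernel
theorem JCZ_r14 : sn (-sr 0) = 1 := by decide +kernel
theorem JCZ_r15 : -JCZ_E = eta + -th := by decide +kernel
theorem JCZ_r16 : -JCZ_E ≠ -th := by decide +kernel
theorem JCZ_r17 : -JCZ_E ≠ pv eta + -th := by decide +kernel
theorem JCZ_r18 : -JCZ_E ≠ eta + pv eta + -th := by decide +kernel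
theorem JCZ_r19 : ip C6 (eta + -th) (eta + -th) = 2 := by decide +kernel
theorem JCZ_r20 : ip C6 (pv eta + -th) (pv eta + -th) = 2 := by decide +kernel
theorem JCZ_r21 : ip C6 (eta + pv eta + -th) (eta + pv eta + -th) = 2 := by decide +kernel

theorem JCZ (hRTF : RTF_stmt) (hSGR : SGR_stmt) (hESF : ESF_stmt) (hGFX : GFX_stmt) (hJQF : JQF_stmt) (hJLS : JLS_stmt) (hJCM : JCM_stmt) (hACS : ACS_stmt) : JCZ_stmt := by
  intro K _ _ h20 f1 f2 t ht hf1 hf2 hf2n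
  have hττ : ∀ x : K, (RingEquiv.refl K) ((RingEquiv.refl K) x) = x := fun _ => rfl
  have hthL : LR th := hRTF.2.2.2.2.2.2.2.2.2.2.2.2.2.1
  obtain ⟨gS, -, -, gpi, -, gcl⟩ := hSGR K (RingEquiv.refl K) hττ
  obtain ⟨eL, eX⟩ := hESF K (RingEquiv.refl K) hττ
  have hthX : ExS (RingEquiv.refl K) (E C6 th : Lm C6 K) := eL th hthL
  obtain ⟨-, -, -, eg, -, ex, -, -⟩ := eX _ hthX
  obtain ⟨gf1, gf2⟩ := hGFX K (RingEquiv.refl K) hττ
  obtain ⟨-, -, -, -, gconj⟩ := gf2 _ hthX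
  obtain ⟨-, -, jq3⟩ := hJQF K h20
  obtain ⟨-, jl2⟩ := hJLS K h20
  -- the centraliser of the product is contained in the centraliser of `f1`
  have hA : ∀ g : GF (RingEquiv.refl K), g * (f1 * f2) = f1 * f2 * g → g * f1 = f1 * g := by
    intro g hg
    obtain ⟨k, hk, hkv⟩ := g.2
    have hAu := (gcl k hk).2.1
    have hkk : ∀ x : Lm C6 K, k (k⁻¹ x) = x := fun x => LinearEquiv.apply_symm_apply k x
    have hgp : ∀ v : LT (RingEquiv.refl K), ((f1 : Equiv.Perm (LT (RingEquiv.refl K))) * (f2 : Equiv.Perm (LT (RingEquiv.refl K))))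
        ((g : Equiv.Perm (LT (RingEquiv.refl K))) v) = (g : Equiv.Perm (LT (RingEquiv.refl K)))
          (((f1 : Equiv.Perm (LT (RingEquiv.refl K))) * (f2 : Equiv.Perm (LT (RingEquiv.refl K)))) v) := by
      intro v
      have h1 := congrArg (fun q : GF (RingEquiv.refl K) => (q : Equiv.Perm (LT (RingEquiv.refl K))) v) hg
      exact h1.symm
    have hfix : t • (E C6 th : Lm C6 K) = t • (k⁻¹ (E C6 th) : Lm C6 K) := by
      refine jl2 _ _ t t hthX (eg k⁻¹ (inv_mem hk)) ht ?_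
      intro v hv
      have h1 := jq3 t _ _ hf1 hf2 ⟨v, hv⟩
      have h2 := jq3 t _ _ hf1 hf2 ((g : Equiv.Perm (LT (RingEquiv.refl K))) ⟨v, hv⟩)
      rw [hgp, hkv, hkv, hAu.fm, h1] at h2
      have h3 : fm C6 (E C6 th) (k v) = fm C6 (k⁻¹ (E C6 th)) v := by
        rw [← hAu.fm (k⁻¹ (E C6 th)) v, hkk]
      rw [h2, h3]
    have hfix1 : (E C6 th : Lm C6 K) = k⁻¹ (E C6 th) := smul_right_injective _ ht hfix
    have hfix2 : k (E C6 th) = (E C6 th : Lm C6 K) := by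
      rw [hfix1, hkk, ← hfix1]
    have h4 := gconj _ g.2 k hk hkv t _ hf1
    rw [hfix2] at h4
    have h5 : (g : Equiv.Perm (LT (RingEquiv.refl K))) * (f1 : Equiv.Perm (LT (RingEquiv.refl K))) *
        (g : Equiv.Perm (LT (RingEquiv.refl K)))⁻¹ = f1 :=
      Equiv.ext fun v => Subtype.ext ((h4 v).trans (hf1 v).symm)
    apply Subtype.ext
    exact mul_inv_eq_iff_eq_mul.1 h5
  -- an element which commutes with `f1` only
  have hB : ∃ g : GF (RingEquiv.refl K), g * f1 = f1 * g ∧ g * (f1 * f2) ≠ f1 * f2 * g := by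
    obtain ⟨k0, hk0, hk0S⟩ := gS (-sr 0) 1 JCZ_r1
    obtain ⟨g0, hg0, hg0v⟩ := gf1 k0 hk0
    obtain ⟨X1, hX1, hX1X⟩ := ex t rfl
    have hc1 : k0 * X1 = X1 * k0 := (hJCM K h20).2 (-sr 0) th JCZ_r1 hthL JCZ_r4 1 t k0 X1 hk0S hX1X
    have hf1v : ∀ v : LT (RingEquiv.refl K), (((f1 : GF (RingEquiv.refl K)) : Equiv.Perm (LT (RingEquiv.refl K))) v : Lm C6 K) = X1 v :=
      fun v => (hf1 v).trans (hX1X v).symm
    have hcomm : (⟨g0, hg0⟩ : GF (RingEquiv.refl K)) * f1 = f1 * ⟨g0, hg0⟩ := by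
      apply Subtype.ext
      apply Equiv.ext
      intro v
      apply Subtype.ext
      change (g0 ((f1 : Equiv.Perm (LT (RingEquiv.refl K))) v) : Lm C6 K) = (f1 : Equiv.Perm (LT (RingEquiv.refl K))) (g0 v)
      rw [hg0v, hf1v, hf1v, hg0v]
      exact congrArg (fun q : Lm C6 K ≃ₗ[K] Lm C6 K => q (v : Lm C6 K)) hc1
    refine ⟨⟨g0, hg0⟩, hcomm, ?_⟩
    intro hg
    have hg2 : (⟨g0, hg0⟩ : GF (RingEquiv.refl K)) * f2 = f2 * ⟨g0, hg0⟩ := by
      have h1 : f1 * ((⟨g0, hg0⟩ : GF (RingEquiv.refl K)) * f2) = f1 * (f2 * ⟨g0, hg0⟩) := by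
        rw [← mul_assoc, ← hcomm, mul_assoc, hg, mul_assoc]
      exact mul_left_cancel h1
    obtain ⟨y, g2, hg2S, hg2v'⟩ := hf2
    have hg2v : ∀ v : LT (RingEquiv.refl K), (((f2 : GF (RingEquiv.refl K)) : Equiv.Perm (LT (RingEquiv.refl K))) v : Lm C6 K) = g2 v :=
      fun v => hg2v' v
    -- `y ≠ 0`
    have hy : y ≠ 0 := by
      intro hy
      apply hf2n
      apply Subtype.ext
      apply Equiv.ext
      intro v
      apply Subtype.ext
      rw [hg2v, hg2S, hy, map_zero, mul_zero, JCZ_zero, JCZ_zero]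
      rfl
    have hv0 : (E C6 (-th) : Lm C6 K) ∈ LT (RingEquiv.refl K) := ((eX _ (eL (-th) JCZ_r3)).2.2.1)
    obtain ⟨-, -, -, hact0⟩ := hACS K (RingEquiv.refl K) hττ (-sr 0) (-th) JCZ_r1 JCZ_r3
    obtain ⟨-, -, -, hact2⟩ := hACS K (RingEquiv.refl K) hττ eta (-th) JCZ_r2 JCZ_r3
    have hk0f : k0 (E C6 (-th)) = (E C6 (-th) : Lm C6 K) := (hact0 1 k0 hk0S).1 JCZ_r5
    obtain ⟨-, hw⟩ := (hact2 y g2 hg2S).2 JCZ_r6
    have hkw : k0 (g2 (E C6 (-th))) = (g2 (E C6 (-th)) : Lm C6 K) := by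
      have h1 := congrArg (fun q : GF (RingEquiv.refl K) =>
        (((q : Equiv.Perm (LT (RingEquiv.refl K))) ⟨E C6 (-th), hv0⟩ : LT (RingEquiv.refl K)) : Lm C6 K)) hg2
      change (g0 ((f2 : Equiv.Perm (LT (RingEquiv.refl K))) ⟨E C6 (-th), hv0⟩) : Lm C6 K) =
        (f2 : Equiv.Perm (LT (RingEquiv.refl K))) (g0 ⟨E C6 (-th), hv0⟩) at h1
      rw [hg0v, hg2v, hg2v, hg0v] at h1
      change k0 (g2 (E C6 (-th))) = g2 (k0 (E C6 (-th))) at h1
      rw [h1, hk0f]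
    -- the action of `k0` on `E D`
    have hAu := (gcl k0 hk0).2.1
    have hkD : k0 (E C6 JCZ_D) = (E C6 JCZ_D + ((sg C6 (pv (-sr 0)) JCZ_D : ℤ) : K) • E C6 JCZ_E : Lm C6 K) := by
      rw [hk0S, (f_ACT 6 C6 K (pv (-sr 0)) _ JCZ_r9).2.1 JCZ_D JCZ_r7 JCZ_r10, JCZ_r11, JCZ_r14, JCZ_add, JCZ_smul,
        (f_ACT 6 C6 K (-sr 0) 1 JCZ_r1.1).1 JCZ_D JCZ_r7 JCZ_r12, (f_ACT 6 C6 K (-sr 0) 1 JCZ_r1.1).1 JCZ_E JCZ_r8 JCZ_r13,
        map_one]
      push_cast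
      rw [one_mul, one_mul]
    have h6 := hAu.fm (E C6 JCZ_D) (g2 (E C6 (-th)))
    rw [hkw, hkD, fm_add_left, fm_smul_left] at h6
    have h7 : ((sg C6 (pv (-sr 0)) JCZ_D : ℤ) : K) * fm C6 (E C6 JCZ_E) (g2 (E C6 (-th))) = 0 := by
      linear_combination h6
    have h8 : fm C6 (E C6 JCZ_E) (g2 (E C6 (-th))) = 0 :=
      (mul_eq_zero.1 h7).resolve_left (sg_ne_zero C6 _ _)
    rw [fm_E C6 JCZ_r8, hw, cf_add, cf_add, cf_add, cf_smul, cf_smul, cf_smul, cf_E C6 JCZ_r3.1, cf_E C6 JCZ_r19,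
      cf_E C6 JCZ_r20, cf_E C6 JCZ_r21, if_neg JCZ_r16, if_pos JCZ_r15, if_neg JCZ_r17, if_neg JCZ_r18] at h8
    have h9 : y * ((sg C6 eta (-th) : ℤ) : K) = 0 := by
      linear_combination h8
    rcases mul_eq_zero.1 h9 with h10 | h10
    · exact hy h10
    · exact sg_ne_zero C6 _ _ h10
  -- count
  obtain ⟨g, hg1, hg2⟩ := hB
  have e1 : Nat.card {g : GF (RingEquiv.refl K) // g * (f1 * f2) = f1 * f2 * g} =
      ({g | g * (f1 * f2) = f1 * f2 * g} : Set (GF (RingEquiv.refl K))).ncard := Nat.card_coe_set_eq _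
  have e2 : Nat.card {g : GF (RingEquiv.refl K) // g * f1 = f1 * g} =
      ({g | g * f1 = f1 * g} : Set (GF (RingEquiv.refl K))).ncard := Nat.card_coe_set_eq _
  rw [e1, e2]
  have hsub : ({g | g * (f1 * f2) = f1 * f2 * g} : Set (GF (RingEquiv.refl K))) ⊆ {g | g * f1 = f1 * g} :=
    fun g hg => hA g hg
  exact Set.ncard_lt_ncard ((Set.ssubset_iff_of_subset hsub).2 ⟨g, hg1, hg2⟩) (Set.toFinite _)

end Pool.Agent.EXT
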